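import Mathlib

/-! Ceva relation, monotone scales and porosity of windows. -/

set_option autoImplicit false

namespace Pool.Agent.P.MP_77a832_co.KP

noncomputable def phi (al be t : ℝ) : ℝ := Real.log (t - al) - Real.log (t - be)

theorem ceva_pair (x y x1 y1 x2 y2 : ℝ) (h1 : x1 < x) (h2 : x2 < x) (h12 : x1 ≠ x2) :
    (x - x1) * ((y - y1) / (x - x1) - (y2 - y1) / (x2 - x1)) =
      (x - x2) * ((y - y2) / (x - x2) - (y2 - y1) / (x2 - x1)) := by
  have a1 : x - x1 ≠ 0 := ne_of_gt (sub_pos.mpr h1)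
  have a2 : x - x2 ≠ 0 := ne_of_gt (sub_pos.mpr h2)
  have a3 : x2 - x1 ≠ 0 := sub_ne_zero.mpr (Ne.symm h12)
  field_simp
  ring

theorem ceva_sign (u1 u2 t1 t2 s : ℝ) (h1 : 0 < u1) (h2 : 0 < u2) (ht : t1 ≠ t2)
    (h : u1 * (t1 - s) = u2 * (t2 - s)) : 0 < (t1 - s) * (t2 - s) := by
  have n1 : t1 - s ≠ 0 := by
    intro h0
    have : u2 * (t2 - s) = 0 := by rw [← h, h0, mul_zero]
    have h3 : t2 - s = 0 := by
      rcases mul_eq_zero.mp this with h4 | h4
      · exact absurd h4 (ne_of_gt h2)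
      · exact h4
    exact ht (by linarith)
  have : u2 * ((t1 - s) * (t2 - s)) = u1 * (t1 - s) ^ 2 := by
    calc u2 * ((t1 - s) * (t2 - s)) = (t1 - s) * (u2 * (t2 - s)) := by ring
      _ = (t1 - s) * (u1 * (t1 - s)) := by rw [h]
      _ = u1 * (t1 - s) ^ 2 := by ring
  have hp : 0 < u1 * (t1 - s) ^ 2 := mul_pos h1 (by positivity)
  rw [← this] at hp
  exact (mul_pos_iff_of_pos_left h2).mp hp

theorem ceva_abs (u1 u2 u3 t1 t2 t3 s12 s23 s31 : ℝ) (h1 : 0 < u1) (h2 : 0 < u2) (h3 : 0 < u3)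
    (n12 : t1 ≠ t2) (n23 : t2 ≠ t3) (n31 : t3 ≠ t1)
    (e12 : u1 * (t1 - s12) = u2 * (t2 - s12)) (e23 : u2 * (t2 - s23) = u3 * (t3 - s23))
    (e31 : u3 * (t3 - s31) = u1 * (t1 - s31)) :
    phi s12 s31 t1 + phi s23 s12 t2 + phi s31 s23 t3 = 0 := by
  have p12 := ceva_sign u1 u2 t1 t2 s12 h1 h2 n12 e12
  have p23 := ceva_sign u2 u3 t2 t3 s23 h2 h3 n23 e23
  have p31 := ceva_sign u3 u1 t3 t1 s31 h3 h1 n31 e31
  have l12 := congrArg Real.log e12
  have l23 := congrArg Real.log e23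
  have l31 := congrArg Real.log e31
  rw [Real.log_mul (ne_of_gt h1) (left_ne_zero_of_mul (ne_of_gt p12)),
    Real.log_mul (ne_of_gt h2) (right_ne_zero_of_mul (ne_of_gt p12))] at l12
  rw [Real.log_mul (ne_of_gt h2) (left_ne_zero_of_mul (ne_of_gt p23)),
    Real.log_mul (ne_of_gt h3) (right_ne_zero_of_mul (ne_of_gt p23))] at l23
  rw [Real.log_mul (ne_of_gt h3) (left_ne_zero_of_mul (ne_of_gt p31)),
    Real.log_mul (ne_of_gt h1) (right_ne_zero_of_mul (ne_of_gt p31))] at l31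
  unfold phi
  linarith

/-- Ceva relation for the slopes from three points to a fourth point on their right. -/
theorem ceva (x y x1 y1 x2 y2 x3 y3 : ℝ) (h1 : x1 < x) (h2 : x2 < x) (h3 : x3 < x)
    (d12 : x1 ≠ x2) (d23 : x2 ≠ x3) (d31 : x3 ≠ x1)
    (n12 : (y - y1) / (x - x1) ≠ (y - y2) / (x - x2))
    (n23 : (y - y2) / (x - x2) ≠ (y - y3) / (x - x3))
    (n31 : (y - y3) / (x - x3) ≠ (y - y1) / (x - x1)) :
    (phi ((y2 - y1) / (x2 - x1)) ((y1 - y3) / (x1 - x3)) ((y - y1) / (x - x1)) +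
      phi ((y3 - y2) / (x3 - x2)) ((y2 - y1) / (x2 - x1)) ((y - y2) / (x - x2)) +
      phi ((y1 - y3) / (x1 - x3)) ((y3 - y2) / (x3 - x2)) ((y - y3) / (x - x3)) = 0) ∧
    0 < ((y - y1) / (x - x1) - (y2 - y1) / (x2 - x1)) *
      ((y - y2) / (x - x2) - (y2 - y1) / (x2 - x1)) ∧
    0 < ((y - y2) / (x - x2) - (y3 - y2) / (x3 - x2)) *
      ((y - y3) / (x - x3) - (y3 - y2) / (x3 - x2)) ∧
    0 < ((y - y3) / (x - x3) - (y1 - y3) / (x1 - x3)) *
      ((y - y1) / (x - x1) - (y1 - y3) / (x1 - x3)) := by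
  have e12 := ceva_pair x y x1 y1 x2 y2 h1 h2 d12
  have e23 := ceva_pair x y x2 y2 x3 y3 h2 h3 d23
  have e31 := ceva_pair x y x3 y3 x1 y1 h3 h1 d31
  have p1 := sub_pos.mpr h1
  have p2 := sub_pos.mpr h2
  have p3 := sub_pos.mpr h3
  exact ⟨ceva_abs _ _ _ _ _ _ _ _ _ p1 p2 p3 n12 n23 n31 e12 e23 e31,
    ceva_sign _ _ _ _ _ p1 p2 n12 e12, ceva_sign _ _ _ _ _ p2 p3 n23 e23,
    ceva_sign _ _ _ _ _ p3 p1 n31 e31⟩

/-- branch of the two poles -/
def Br (al be e1 e2 : ℝ) : Set ℝ := {t | 0 < e1 * (t - al) ∧ 0 < e2 * (t - be)}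

theorem br_ord (al be e1 e2 : ℝ) : (Br al be e1 e2).OrdConnected := by
  refine ⟨fun s hs t ht u hu => ?_⟩
  obtain ⟨a1, a2⟩ := hs
  obtain ⟨b1, b2⟩ := ht
  obtain ⟨c1, c2⟩ := hu
  constructor
  · rcases le_total 0 e1 with h | h <;> nlinarith
  · rcases le_total 0 e2 with h | h <;> nlinarith

theorem log_sign (e u : ℝ) (he : e = 1 ∨ e = -1) : Real.log u = Real.log (e * u) := by
  rcases he with h | h <;> subst h <;> simp

theorem br_lt (al be e1 e2 : ℝ) (he1 : e1 = 1 ∨ e1 = -1) (he2 : e2 = 1 ∨ e2 = -1)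
    (hpos : 0 < e1 * e2 * (al - be)) : StrictMonoOn (phi al be) (Br al be e1 e2) := by
  intro s hs t ht hst
  obtain ⟨a1, a2⟩ := hs
  obtain ⟨b1, b2⟩ := ht
  unfold phi
  rw [log_sign e1 (s - al) he1, log_sign e1 (t - al) he1, log_sign e2 (s - be) he2,
    log_sign e2 (t - be) he2]
  have key : e1 * (s - al) * (e2 * (t - be)) < e1 * (t - al) * (e2 * (s - be)) := by
    have : 0 < e1 * e2 * (al - be) * (t - s) := mul_pos hpos (sub_pos.mpr hst)
    nlinarith
  have := Real.log_lt_log (mul_pos a1 b2) key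
  rw [Real.log_mul (ne_of_gt a1) (ne_of_gt b2), Real.log_mul (ne_of_gt b1) (ne_of_gt a2)] at this
  linarith

theorem phi_swap (al be t : ℝ) : phi be al t = - phi al be t := by
  unfold phi; ring

theorem br_mono (al be e1 e2 : ℝ) (hne : al ≠ be) (he1 : e1 = 1 ∨ e1 = -1)
    (he2 : e2 = 1 ∨ e2 = -1) :
    ∃ sg : ℝ, (sg = 1 ∨ sg = -1) ∧ StrictMonoOn (fun t => sg * phi al be t) (Br al be e1 e2) := by
  have hz : e1 * e2 * (al - be) ≠ 0 := by
    have : al - be ≠ 0 := sub_ne_zero.mpr hne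
    refine mul_ne_zero (mul_ne_zero ?_ ?_) this
    · rcases he1 with h | h <;> subst h <;> norm_num
    · rcases he2 with h | h <;> subst h <;> norm_num
  rcases lt_or_gt_of_ne hz with h | h
  · refine ⟨-1, Or.inr rfl, ?_⟩
    have := br_lt be al e2 e1 he2 he1 (by linarith)
    intro s hs t ht hst
    have h2 := this ⟨hs.2, hs.1⟩ ⟨ht.2, ht.1⟩ hst
    rw [phi_swap al be s, phi_swap al be t] at h2
    simpa using h2
  · refine ⟨1, Or.inl rfl, ?_⟩
    simpa using br_lt al be e1 e2 he1 he2 h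

theorem ext_mono (I : Set ℝ) (hI : I.OrdConnected) (f : ℝ → ℝ) (hf : StrictMonoOn f I)
    (G : Finset ℝ) : ∃ g : ℝ → ℝ, (∀ x ∈ I, g x = f x) ∧
      (∀ x ∈ G, ∀ z ∈ G, x ≤ z → g x ≤ g z) ∧
      (∀ x ∈ G, ∀ z ∈ G, (x ∈ I ∨ z ∈ I) → x < z → g x < g z) := by
  classical
  set M : ℝ := 1 + ∑ x ∈ G, |f x| with hM
  have hb : ∀ x ∈ G, |f x| < M := by
    intro x hx
    have := Finset.single_le_sum (f := fun x => |f x|) (fun i _ => abs_nonneg _) hx
    linarith
  have hM0 : 0 < M := by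
    have : 0 ≤ ∑ x ∈ G, |f x| := Finset.sum_nonneg (fun i _ => abs_nonneg _)
    linarith
  have strict : ∀ x ∈ G, ∀ z ∈ G, (x ∈ I ∨ z ∈ I) → x < z →
      (if x ∈ I then f x else if ∀ u ∈ I, x ≤ u then -M else M) <
      (if z ∈ I then f z else if ∀ u ∈ I, z ≤ u then -M else M) := by
    intro x hx z hz hor hxz
    by_cases h1 : x ∈ I
    · by_cases h2 : z ∈ I
      · rw [if_pos h1, if_pos h2]; exact hf h1 h2 hxz
      · have : ¬ ∀ u ∈ I, z ≤ u := fun h => absurd (h x h1) (not_le.mpr hxz)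
        rw [if_pos h1, if_neg h2, if_neg this]
        exact lt_of_le_of_lt (le_abs_self _) (hb x hx)
    · have h2 : z ∈ I := hor.resolve_left h1
      have : ∀ u ∈ I, x ≤ u := by
        intro u hu
        by_contra hc
        exact h1 (hI.out hu h2 ⟨le_of_lt (not_le.mp hc), le_of_lt hxz⟩)
      rw [if_neg h1, if_pos this, if_pos h2]
      have := neg_abs_le (f z)
      linarith [hb z hz]
  refine ⟨fun x => if x ∈ I then f x else if ∀ u ∈ I, x ≤ u then -M else M, ?_, ?_, strict⟩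
  · intro x hx; simp [hx]
  · intro x hx z hz hxz
    rcases eq_or_lt_of_le hxz with h | h
    · subst h; exact le_rfl
    by_cases hor : x ∈ I ∨ z ∈ I
    · exact le_of_lt (strict x hx z hz hor h)
    · push Not at hor
      simp only [if_neg hor.1, if_neg hor.2]
      by_cases h2 : ∀ u ∈ I, z ≤ u
      · have h1 : ∀ u ∈ I, x ≤ u := fun u hu => le_trans hxz (h2 u hu)
        rw [if_pos h1, if_pos h2]
      · rw [if_neg h2]
        split_ifs <;> linarith

theorem branch (al be e1 e2 : ℝ) (hne : al ≠ be) (he1 : e1 = 1 ∨ e1 = -1)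
    (he2 : e2 = 1 ∨ e2 = -1) (Th : ℕ → ℝ) (n : ℕ) (hTh : ∀ i j, i ≤ j → j ≤ n → Th i ≤ Th j)
    (F : Finset ℝ) :
    ∃ sg : ℝ, (sg = 1 ∨ sg = -1) ∧ ∃ E : ℕ → ℝ, Monotone E ∧
      (∀ t ≤ n, Th t ∈ Br al be e1 e2 → E t = sg * phi al be (Th t)) ∧
      (∀ v ∈ F, v ∈ Br al be e1 e2 → ∀ B < n, Th B < v → v < Th (B + 1) →
        E B < sg * phi al be v ∧ sg * phi al be v < E (B + 1)) := by
  classical
  obtain ⟨sg, hsg, hm⟩ := br_mono al be e1 e2 hne he1 he2
  obtain ⟨g, g1, g2, g3⟩ := ext_mono _ (br_ord al be e1 e2) _ hm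
    (F ∪ (Finset.range (n + 1)).image Th)
  have mem : ∀ t ≤ n, Th t ∈ F ∪ (Finset.range (n + 1)).image Th := fun t ht =>
    Finset.mem_union_right _ (Finset.mem_image_of_mem _ (Finset.mem_range.mpr (by omega)))
  refine ⟨sg, hsg, fun t => g (Th (min t n)), ?_, ?_, ?_⟩
  · intro s t hst
    exact g2 _ (mem _ (min_le_right _ _)) _ (mem _ (min_le_right _ _))
      (hTh _ _ (min_le_min_right _ hst) (min_le_right _ _))
  · intro t ht hb
    simp only [min_eq_left ht]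
    exact g1 _ hb
  · intro v hv hb B hB h1 h2
    have hv' : v ∈ F ∪ (Finset.range (n + 1)).image Th := Finset.mem_union_left _ hv
    simp only [min_eq_left (le_of_lt hB), min_eq_left (Nat.succ_le_of_lt hB)]
    have e := g1 v hb
    rw [← e]
    exact ⟨g3 _ (mem _ (le_of_lt hB)) _ hv' (Or.inr hb) h1,
      g3 _ hv' _ (mem _ (Nat.succ_le_of_lt hB)) (Or.inl hb) h2⟩


/-- admissible pole for the block `[a,b]` inside `[lo,hi]`: far or near, left or right -/
def Adm (lo hi a b p : ℝ) : Prop :=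
  (p < lo ∧ (b - a ≤ a - p ∨ a - p ≤ 2 * (a - lo))) ∨
    (hi < p ∧ (b - a ≤ p - b ∨ p - b ≤ 2 * (hi - b)))

theorem inter (lo hi a1 b1 a2 b2 p : ℝ) (h0 : lo ≤ a1) (h1 : b1 ≤ a2) (h2 : b2 ≤ hi)
    (hp : p < lo ∨ hi < p) : Adm lo hi a1 b1 p ∨ Adm lo hi a2 b2 p := by
  unfold Adm
  rcases hp with hp | hp
  · by_cases c1 : b1 - a1 ≤ a1 - p
    · exact Or.inl (Or.inl ⟨hp, Or.inl c1⟩)
    · exact Or.inr (Or.inl ⟨hp, Or.inr (by linarith [not_le.mp c1])⟩)
  · by_cases c1 : b2 - a2 ≤ p - b2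
    · exact Or.inr (Or.inr ⟨hp, Or.inl c1⟩)
    · exact Or.inl (Or.inr ⟨hp, Or.inr (by linarith [not_le.mp c1])⟩)

noncomputable def wt (lo hi a b : ℝ) (u : Fin 3) (x : ℝ) : ℝ :=
  if u = 1 ∧ lo < a then (x - lo)⁻¹ else if u = 2 ∧ b < hi then (hi - x)⁻¹ else 1

theorem wt_cont (lo hi a b : ℝ) (u : Fin 3) : ContinuousOn (wt lo hi a b u) (Set.Icc a b) := by
  unfold wt
  by_cases h1 : u = 1 ∧ lo < a
  · simp only [if_pos h1]
    exact ContinuousOn.inv₀ (by fun_prop) (fun x hx => ne_of_gt (by linarith [hx.1, h1.2]))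
  · simp only [if_neg h1]
    by_cases h2 : u = 2 ∧ b < hi
    · simp only [if_pos h2]
      exact ContinuousOn.inv₀ (by fun_prop) (fun x hx => ne_of_gt (by linarith [hx.2, h2.2]))
    · simp only [if_neg h2]
      exact continuousOn_const

theorem wt_pos (lo hi a b : ℝ) (u : Fin 3) (x : ℝ) (hx : x ∈ Set.Icc a b) :
    0 < wt lo hi a b u x := by
  unfold wt
  split_ifs with h1 h2
  · exact inv_pos.mpr (by linarith [hx.1, h1.2])
  · exact inv_pos.mpr (by linarith [hx.2, h2.2])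
  · exact one_pos

theorem inv_cmp (d e : ℝ) (hd : 0 < d) (h1 : d ≤ e) (h2 : e ≤ 2 * d) :
    (1 / 2) * d⁻¹ ≤ e⁻¹ ∧ e⁻¹ ≤ 2 * ((1 / 2) * d⁻¹) := by
  have he : 0 < e := lt_of_lt_of_le hd h1
  constructor
  · have : (1 / 2) * d⁻¹ = (2 * d)⁻¹ := by field_simp
    rw [this]
    exact inv_anti₀ he h2
  · have : 2 * ((1 / 2) * d⁻¹) = d⁻¹ := by ring
    rw [this]
    exact inv_anti₀ hd h1

theorem adm_wt (lo hi a b p : ℝ) (h0 : lo ≤ a) (h2 : b ≤ hi) (h : Adm lo hi a b p) :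
    ∃ u : Fin 3, ∃ k : ℝ, 0 < k ∧ ∀ x ∈ Set.Icc a b,
      k * wt lo hi a b u x ≤ |x - p|⁻¹ ∧ |x - p|⁻¹ ≤ 2 * (k * wt lo hi a b u x) := by
  rcases h with ⟨hp, h | h⟩ | ⟨hp, h | h⟩
  · refine ⟨0, (1 / 2) * (a - p)⁻¹, mul_pos (by norm_num) (inv_pos.mpr (by linarith)), ?_⟩
    intro x hx
    have : wt lo hi a b 0 x = 1 := by unfold wt; simp
    rw [this, mul_one, abs_of_pos (by linarith [hx.1])]
    exact inv_cmp _ _ (by linarith) (by linarith [hx.1]) (by linarith [hx.2])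
  · refine ⟨1, 1 / 2, by norm_num, ?_⟩
    intro x hx
    have hl : lo < a := by linarith
    have : wt lo hi a b 1 x = (x - lo)⁻¹ := by unfold wt; simp [hl]
    rw [this, abs_of_pos (by linarith [hx.1])]
    exact inv_cmp _ _ (by linarith [hx.1]) (by linarith) (by linarith [hx.1])
  · refine ⟨0, (1 / 2) * (p - b)⁻¹, mul_pos (by norm_num) (inv_pos.mpr (by linarith)), ?_⟩
    intro x hx
    have : wt lo hi a b 0 x = 1 := by unfold wt; simp
    rw [this, mul_one, abs_of_neg (by linarith [hx.2])]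
    exact inv_cmp _ _ (by linarith) (by linarith [hx.2]) (by linarith [hx.1])
  · refine ⟨2, 1 / 2, by norm_num, ?_⟩
    intro x hx
    have hl : b < hi := by linarith
    have : wt lo hi a b 2 x = (hi - x)⁻¹ := by unfold wt; simp [hl]
    rw [this, abs_of_neg (by linarith [hx.2])]
    exact inv_cmp _ _ (by linarith [hx.2]) (by linarith) (by linarith [hx.2])

theorem adm_out (lo hi a b p : ℝ) (h0 : lo ≤ a) (h2 : b ≤ hi) (h : Adm lo hi a b p) :
    p < a ∨ b < p := by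
  rcases h with ⟨hp, _⟩ | ⟨hp, _⟩
  · left; linarith
  · right; linarith

theorem rho_cont (al be s t : ℝ) (ha : al < s ∨ t < al) (hb : be < s ∨ t < be) :
    ContinuousOn (fun x => |x - al|⁻¹ * |x - be|⁻¹) (Set.Icc s t) := by
  have k : ∀ p : ℝ, (p < s ∨ t < p) → ContinuousOn (fun x => |x - p|⁻¹) (Set.Icc s t) := by
    intro p hp
    refine ContinuousOn.inv₀ (by fun_prop) (fun x hx => ?_)
    refine abs_ne_zero.mpr ?_
    rcases hp with hp | hp
    · exact ne_of_gt (by linarith [hx.1])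
    · exact ne_of_lt (by linarith [hx.2])
  exact (k al ha).mul (k be hb)

theorem phi_int (al be s t : ℝ) (hst : s ≤ t) (ha : al < s ∨ t < al) (hb : be < s ∨ t < be) :
    |phi al be t - phi al be s| = |al - be| * ∫ x in s..t, |x - al|⁻¹ * |x - be|⁻¹ := by
  have hc := rho_cont al be s t ha hb
  have hint : IntervalIntegrable (fun x => |x - al|⁻¹ * |x - be|⁻¹) MeasureTheory.volume s t :=
    hc.intervalIntegrable_of_Icc hst
  have sgn : ∀ p : ℝ, (p < s ∨ t < p) → ∃ e : ℝ, |e| = 1 ∧ ∀ x ∈ Set.Icc s t,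
      x - p ≠ 0 ∧ (x - p)⁻¹ = e * |x - p|⁻¹ := by
    intro p hp
    rcases hp with hp | hp
    · refine ⟨1, by simp, fun x hx => ?_⟩
      have : 0 < x - p := by linarith [hx.1]
      exact ⟨ne_of_gt this, by rw [abs_of_pos this, one_mul]⟩
    · refine ⟨-1, by simp, fun x hx => ?_⟩
      have : x - p < 0 := by linarith [hx.2]
      exact ⟨ne_of_lt this, by rw [abs_of_neg this, inv_neg]; ring⟩
  obtain ⟨e1, he1, k1⟩ := sgn al ha
  obtain ⟨e2, he2, k2⟩ := sgn be hb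
  have hd : ∀ x ∈ Set.uIcc s t, HasDerivAt (phi al be)
      ((al - be) * e1 * e2 * (|x - al|⁻¹ * |x - be|⁻¹)) x := by
    intro x hx
    rw [Set.uIcc_of_le hst] at hx
    obtain ⟨n1, q1⟩ := k1 x hx
    obtain ⟨n2, q2⟩ := k2 x hx
    have d1 : HasDerivAt (fun z => Real.log (z - al)) (1 / (x - al)) x :=
      ((hasDerivAt_id x).sub_const al).log n1
    have d2 : HasDerivAt (fun z => Real.log (z - be)) (1 / (x - be)) x :=
      ((hasDerivAt_id x).sub_const be).log n2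
    have d3 := d1.sub d2
    have e : (al - be) * e1 * e2 * (|x - al|⁻¹ * |x - be|⁻¹) = 1 / (x - al) - 1 / (x - be) := by
      calc (al - be) * e1 * e2 * (|x - al|⁻¹ * |x - be|⁻¹)
          = (al - be) * ((e1 * |x - al|⁻¹) * (e2 * |x - be|⁻¹)) := by ring
        _ = (al - be) * ((x - al)⁻¹ * (x - be)⁻¹) := by rw [← q1, ← q2]
        _ = 1 / (x - al) - 1 / (x - be) := by field_simp; ring
    rw [e]
    exact d3
  have ftc := intervalIntegral.integral_eq_sub_of_hasDerivAt hd (hint.const_mul _)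
  have hn : 0 ≤ ∫ x in s..t, |x - al|⁻¹ * |x - be|⁻¹ :=
    intervalIntegral.integral_nonneg hst (fun x _ =>
      mul_nonneg (inv_nonneg.mpr (abs_nonneg _)) (inv_nonneg.mpr (abs_nonneg _)))
  rw [← ftc, intervalIntegral.integral_const_mul, abs_mul, abs_mul, abs_mul, he1, he2,
    mul_one, mul_one, abs_of_nonneg hn]

theorem share (L : ℕ → ℝ) (n : ℕ) (hL : ∀ j < n, 0 ≤ L j) (M : ℝ) (hM : 0 < M) :
    (((Finset.range n).filter (fun j => ∑ i ∈ Finset.range n, L i < M * L j)).card : ℝ) ≤ M := by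
  set S := (Finset.range n).filter (fun j => ∑ i ∈ Finset.range n, L i < M * L j) with hS
  set T := ∑ i ∈ Finset.range n, L i with hT
  have hsub : ∑ i ∈ S, L i ≤ T :=
    Finset.sum_le_sum_of_subset_of_nonneg (Finset.filter_subset _ _)
      (fun i hi _ => hL i (Finset.mem_range.mp hi))
  rcases S.eq_empty_or_nonempty with h | h
  · rw [h]; simpa using le_of_lt hM
  have h1 : ∑ _i ∈ S, T < ∑ i ∈ S, M * L i :=
    Finset.sum_lt_sum_of_nonempty h (fun i hi => (Finset.mem_filter.mp hi).2)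
  rw [Finset.sum_const, nsmul_eq_mul, ← Finset.mul_sum] at h1
  have h0 : 0 ≤ T := Finset.sum_nonneg (fun i hi => hL i (Finset.mem_range.mp hi))
  by_contra hc
  have hc := not_le.mp hc
  nlinarith [mul_le_mul_of_nonneg_left hsub (le_of_lt hM), mul_le_mul_of_nonneg_right (le_of_lt hc) h0]

open Classical in
theorem porcard (c : ℕ → ℝ) (n : ℕ) (hc : ∀ i j, i ≤ j → j ≤ n → c i ≤ c j) (lo hi m : ℝ)
    (hm : 0 < m) (hlo : lo ≤ c 0) (hhi : c n ≤ hi) :
    (((Finset.range n).filter (fun j => ∃ al be : ℝ, Adm lo hi (c 0) (c n) al ∧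
      Adm lo hi (c 0) (c n) be ∧ |phi al be (c n) - phi al be (c 0)| <
        m * |phi al be (c (j + 1)) - phi al be (c j)|)).card : ℝ) ≤ 36 * m := by
  set W : Fin 3 × Fin 3 → ℝ → ℝ := fun u x =>
    wt lo hi (c 0) (c n) u.1 x * wt lo hi (c 0) (c n) u.2 x with hW
  have Wc : ∀ u, ContinuousOn (W u) (Set.Icc (c 0) (c n)) := fun u =>
    (wt_cont _ _ _ _ _).mul (wt_cont _ _ _ _ _)
  have sub : ∀ j < n, Set.Icc (c j) (c (j + 1)) ⊆ Set.Icc (c 0) (c n) := fun j hj =>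
    Set.Icc_subset_Icc (hc _ _ (Nat.zero_le _) (le_of_lt hj)) (hc _ _ hj le_rfl)
  have le1 : ∀ j < n, c j ≤ c (j + 1) := fun j hj => hc _ _ (Nat.le_succ _) hj
  have Wi : ∀ u, ∀ j < n, IntervalIntegrable (W u) MeasureTheory.volume (c j) (c (j + 1)) :=
    fun u j hj => ((Wc u).mono (sub j hj)).intervalIntegrable_of_Icc (le1 j hj)
  set L : Fin 3 × Fin 3 → ℕ → ℝ := fun u j => ∫ x in (c j)..(c (j + 1)), W u x with hL
  have L0 : ∀ u, ∀ j < n, 0 ≤ L u j := fun u j hj =>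
    intervalIntegral.integral_nonneg (le1 j hj) (fun x hx =>
      le_of_lt (mul_pos (wt_pos _ _ _ _ _ _ (sub j hj hx)) (wt_pos _ _ _ _ _ _ (sub j hj hx))))
  have Ls : ∀ u, ∑ j ∈ Finset.range n, L u j = ∫ x in (c 0)..(c n), W u x := fun u =>
    intervalIntegral.sum_integral_adjacent_intervals (Wi u)
  have h0n : c 0 ≤ c n := hc _ _ (Nat.zero_le _) le_rfl
  have hsub : (Finset.range n).filter (fun j => ∃ al be : ℝ, Adm lo hi (c 0) (c n) al ∧
      Adm lo hi (c 0) (c n) be ∧ |phi al be (c n) - phi al be (c 0)| <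
        m * |phi al be (c (j + 1)) - phi al be (c j)|) ⊆
      (Finset.univ : Finset (Fin 3 × Fin 3)).biUnion (fun u => (Finset.range n).filter
        (fun j => ∑ i ∈ Finset.range n, L u i < (4 * m) * L u j)) := by
    intro j hj
    obtain ⟨hj, al, be, ha, hb, hlt⟩ := Finset.mem_filter.mp hj
    have hjn := Finset.mem_range.mp hj
    obtain ⟨u1, k1, hk1, w1⟩ := adm_wt _ _ _ _ _ hlo hhi ha
    obtain ⟨u2, k2, hk2, w2⟩ := adm_wt _ _ _ _ _ hlo hhi hb
    have oa := adm_out _ _ _ _ _ hlo hhi ha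
    have ob := adm_out _ _ _ _ _ hlo hhi hb
    have a0 := hc _ _ (Nat.zero_le _) (le_of_lt hjn)
    have a1 : c (j + 1) ≤ c n := hc _ _ hjn le_rfl
    have oa' : al < c j ∨ c (j + 1) < al := oa.imp (fun h => by linarith) (fun h => by linarith)
    have ob' : be < c j ∨ c (j + 1) < be := ob.imp (fun h => by linarith) (fun h => by linarith)
    rw [phi_int al be _ _ h0n oa ob, phi_int al be _ _ (le1 j hjn) oa' ob'] at hlt
    refine Finset.mem_biUnion.mpr ⟨(u1, u2), Finset.mem_univ _, Finset.mem_filter.mpr ⟨hj, ?_⟩⟩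
    have lower : k1 * k2 * ∫ x in (c 0)..(c n), W (u1, u2) x ≤
        ∫ x in (c 0)..(c n), |x - al|⁻¹ * |x - be|⁻¹ := by
      rw [← intervalIntegral.integral_const_mul]
      refine intervalIntegral.integral_mono_on h0n
        (((Wc _).intervalIntegrable_of_Icc h0n).const_mul _)
        ((rho_cont al be _ _ oa ob).intervalIntegrable_of_Icc h0n) (fun x hx => ?_)
      have := mul_le_mul (w1 x hx).1 (w2 x hx).1
        (le_of_lt (mul_pos hk2 (wt_pos _ _ _ _ _ _ hx))) (by positivity)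
      calc k1 * k2 * W (u1, u2) x
          = k1 * wt lo hi (c 0) (c n) u1 x * (k2 * wt lo hi (c 0) (c n) u2 x) := by
            simp only [hW]; ring
        _ ≤ _ := this
    have upper : ∫ x in (c j)..(c (j + 1)), |x - al|⁻¹ * |x - be|⁻¹ ≤
        4 * (k1 * k2) * L (u1, u2) j := by
      simp only [hL]
      rw [← intervalIntegral.integral_const_mul]
      refine intervalIntegral.integral_mono_on (le1 j hjn)
        ((rho_cont al be _ _ oa' ob').intervalIntegrable_of_Icc (le1 j hjn))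
        ((Wi _ j hjn).const_mul _) (fun x hx => ?_)
      have hx' := sub j hjn hx
      have := mul_le_mul (w1 x hx').2 (w2 x hx').2 (by positivity)
        (le_of_lt (mul_pos two_pos (mul_pos hk1 (wt_pos _ _ _ _ _ _ hx'))))
      calc _ ≤ _ := this
        _ = 4 * (k1 * k2) * W (u1, u2) x := by simp only [hW]; ring
    rw [Ls]
    have hd : 0 ≤ |al - be| := abs_nonneg _
    have s1 := mul_le_mul_of_nonneg_left lower hd
    have s2 := mul_le_mul_of_nonneg_left (mul_le_mul_of_nonneg_left upper hd) (le_of_lt hm)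
    have s3 : |al - be| * (k1 * k2) * (∫ x in (c 0)..(c n), W (u1, u2) x) <
        |al - be| * (k1 * k2) * (4 * m * L (u1, u2) j) := by
      calc |al - be| * (k1 * k2) * (∫ x in (c 0)..(c n), W (u1, u2) x)
          = |al - be| * (k1 * k2 * ∫ x in (c 0)..(c n), W (u1, u2) x) := by ring
        _ < m * (|al - be| * (4 * (k1 * k2) * L (u1, u2) j)) := by linarith
        _ = _ := by ring
    exact lt_of_mul_lt_mul_left s3 (mul_nonneg hd (le_of_lt (mul_pos hk1 hk2)))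
  have h1 := Finset.card_le_card hsub
  have h2 := le_trans h1 Finset.card_biUnion_le
  have h3 : ((∑ u : Fin 3 × Fin 3, ((Finset.range n).filter
      (fun j => ∑ i ∈ Finset.range n, L u i < (4 * m) * L u j)).card : ℕ) : ℝ) ≤ 36 * m := by
    push_cast
    calc _ ≤ ∑ _u : Fin 3 × Fin 3, 4 * m :=
          Finset.sum_le_sum (fun u _ => share (L u) n (L0 u) (4 * m) (by linarith))
      _ = 36 * m := by simp; ring
  exact le_trans (by exact_mod_cast h2) h3


open Classical in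
theorem two_windows (c : ℕ → ℝ) (n : ℕ) (hc : ∀ i j, i ≤ j → j ≤ n → c i ≤ c j) (p : ℝ) :
    ((Finset.range n).filter (fun V => c V < c (V + 1) ∧ c V ≤ p ∧ p ≤ c (V + 1))).card ≤ 2 := by
  set S := (Finset.range n).filter (fun V => c V < c (V + 1) ∧ c V ≤ p ∧ p ≤ c (V + 1)) with hS
  rcases S.eq_empty_or_nonempty with h | h
  · rw [h]; simp
  have : S ⊆ {S.min' h, S.max' h} := by
    intro V hV
    by_contra hc'
    simp only [Finset.mem_insert, Finset.mem_singleton, not_or] at hc'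
    have h1 : S.min' h < V := lt_of_le_of_ne (S.min'_le V hV) (Ne.symm hc'.1)
    have h2 : V < S.max' h := lt_of_le_of_ne (S.le_max' V hV) hc'.2
    obtain ⟨_, _, _, a3⟩ := Finset.mem_filter.mp (S.min'_mem h)
    obtain ⟨b0, _, b2, _⟩ := Finset.mem_filter.mp (S.max'_mem h)
    obtain ⟨d0, d1, _, _⟩ := Finset.mem_filter.mp hV
    have b0 := Finset.mem_range.mp b0
    have d0 := Finset.mem_range.mp d0
    have e1 := hc (S.min' h + 1) V h1 (le_of_lt d0)
    have e2 := hc (V + 1) (S.max' h) h2 (le_of_lt b0)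
    linarith
  exact le_trans (Finset.card_le_card this) Finset.card_le_two

theorem win_le (B a b : ℕ) (hab : a ≤ b) :
    B / 16 ^ b * 16 ^ b ≤ B / 16 ^ a * 16 ^ a ∧
      (B / 16 ^ a + 1) * 16 ^ a ≤ (B / 16 ^ b + 1) * 16 ^ b := by
  obtain ⟨d, rfl⟩ := Nat.exists_eq_add_of_le hab
  have e : B / 16 ^ (a + d) = B / 16 ^ a / 16 ^ d := by rw [pow_add, Nat.div_div_eq_div_mul]
  rw [e, pow_add]
  set u := B / 16 ^ a
  have p : 0 < 16 ^ d := by positivity
  have h1 : u / 16 ^ d * 16 ^ d ≤ u := Nat.div_mul_le_self _ _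
  have h2 : u + 1 ≤ (u / 16 ^ d + 1) * 16 ^ d := by
    have := Nat.lt_div_mul_add (a := u) p
    rw [add_mul, one_mul]; omega
  constructor
  · calc u / 16 ^ d * (16 ^ a * 16 ^ d) = u / 16 ^ d * 16 ^ d * 16 ^ a := by ring
      _ ≤ _ := Nat.mul_le_mul_right _ h1
  · calc (u + 1) * 16 ^ a ≤ (u / 16 ^ d + 1) * 16 ^ d * 16 ^ a := Nat.mul_le_mul_right _ h2
      _ = _ := by ring

theorem div_lt_pow (B J a : ℕ) (hB : B < 16 ^ J) (ha : a ≤ J) : B / 16 ^ a < 16 ^ (J - a) := by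
  refine Nat.div_lt_of_lt_mul ?_
  rw [← pow_add, Nat.add_sub_cancel' ha]; exact hB

theorem end_le (u J a : ℕ) (hu : u < 16 ^ (J - a)) (ha : a ≤ J) : (u + 1) * 16 ^ a ≤ 16 ^ J := by
  calc (u + 1) * 16 ^ a ≤ 16 ^ (J - a) * 16 ^ a := Nat.mul_le_mul_right _ hu
    _ = 16 ^ J := by rw [← pow_add, Nat.sub_add_cancel ha]

open Classical in
theorem inter_card (Th : ℕ → ℝ) (J g H : ℕ) (hTh : ∀ i j, i ≤ j → j ≤ 16 ^ J → Th i ≤ Th j)
    (hg : g ≤ H) (hH : H ≤ J) (p : ℝ) :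
    ((Finset.range (16 ^ (J - g))).filter (fun W =>
      (p < Th (W / 16 ^ (H - g) * 16 ^ H) ∨ Th ((W / 16 ^ (H - g) + 1) * 16 ^ H) < p) ∧
      ¬ Adm (Th (W / 16 ^ (H - g) * 16 ^ H)) (Th ((W / 16 ^ (H - g) + 1) * 16 ^ H))
        (Th (W * 16 ^ g)) (Th ((W + 1) * 16 ^ g)) p)).card ≤ 16 ^ (J - H) := by
  have hv : ∀ W, W < 16 ^ (J - g) → W / 16 ^ (H - g) < 16 ^ (J - H) := by
    intro W hW
    have := div_lt_pow W (J - g) (H - g) hW (by omega)
    rwa [show J - g - (H - g) = J - H by omega] at this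
  have hin : ∀ W, W / 16 ^ (H - g) * 16 ^ H ≤ W * 16 ^ g ∧
      (W + 1) * 16 ^ g ≤ (W / 16 ^ (H - g) + 1) * 16 ^ H := by
    intro W
    have := win_le W 0 (H - g) (Nat.zero_le _)
    simp only [pow_zero, Nat.div_one, mul_one] at this
    have e : 16 ^ H = 16 ^ (H - g) * 16 ^ g := by rw [← pow_add, Nat.sub_add_cancel hg]
    rw [e, ← mul_assoc, ← mul_assoc]
    exact ⟨Nat.mul_le_mul_right _ this.1, Nat.mul_le_mul_right _ this.2⟩
  have key : ∀ W1 W2, W1 < W2 → W2 < 16 ^ (J - g) → W1 / 16 ^ (H - g) = W2 / 16 ^ (H - g) →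
      (p < Th (W2 / 16 ^ (H - g) * 16 ^ H) ∨ Th ((W2 / 16 ^ (H - g) + 1) * 16 ^ H) < p) →
      Adm (Th (W2 / 16 ^ (H - g) * 16 ^ H)) (Th ((W2 / 16 ^ (H - g) + 1) * 16 ^ H))
        (Th (W1 * 16 ^ g)) (Th ((W1 + 1) * 16 ^ g)) p ∨
      Adm (Th (W2 / 16 ^ (H - g) * 16 ^ H)) (Th ((W2 / 16 ^ (H - g) + 1) * 16 ^ H))
        (Th (W2 * 16 ^ g)) (Th ((W2 + 1) * 16 ^ g)) p := by
    intro W1 W2 h12 h2 he hp
    have e2 := end_le W2 J g h2 (le_trans hg hH)
    have e3 := end_le _ J H (hv W2 h2) hH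
    have m1 : W1 * 16 ^ g ≤ (W2 + 1) * 16 ^ g := Nat.mul_le_mul_right _ (by omega)
    have m2 : (W1 + 1) * 16 ^ g ≤ W2 * 16 ^ g := Nat.mul_le_mul_right _ (by omega)
    have m3 : W2 * 16 ^ g ≤ (W2 + 1) * 16 ^ g := Nat.mul_le_mul_right _ (by omega)
    refine inter _ _ _ _ _ _ p ?_ ?_ ?_ hp
    · rw [← he]; exact hTh _ _ (hin W1).1 (le_trans m1 e2)
    · exact hTh _ _ m2 (le_trans m3 e2)
    · exact hTh _ _ (hin W2).2 e3
  rw [← Finset.card_range (16 ^ (J - H))]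
  refine Finset.card_le_card_of_injOn (fun W => W / 16 ^ (H - g)) ?_ ?_
  · intro W hW
    have := (Finset.mem_filter.mp (Finset.mem_coe.mp hW)).1
    exact Finset.mem_coe.mpr (Finset.mem_range.mpr (hv W (Finset.mem_range.mp this)))
  · intro W1 h1 W2 h2 he
    obtain ⟨a0, a1, a2⟩ := Finset.mem_filter.mp (Finset.mem_coe.mp h1)
    obtain ⟨b0, b1, b2⟩ := Finset.mem_filter.mp (Finset.mem_coe.mp h2)
    have he : W1 / 16 ^ (H - g) = W2 / 16 ^ (H - g) := he
    rcases lt_trichotomy W1 W2 with h | h | h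
    · rcases key W1 W2 h (Finset.mem_range.mp b0) he b1 with k | k
      · rw [← he] at k; exact absurd k a2
      · exact absurd k b2
    · exact h
    · rcases key W2 W1 h (Finset.mem_range.mp a0) he.symm a1 with k | k
      · rw [he] at k; exact absurd k b2
      · exact absurd k a2

theorem br_of_out (al be e1 e2 lo hi v x : ℝ) (hv : v ∈ Br al be e1 e2) (v1 : lo ≤ v) (v2 : v ≤ hi)
    (x1 : lo ≤ x) (x2 : x ≤ hi) (ha : al < lo ∨ hi < al) (hb : be < lo ∨ hi < be) :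
    x ∈ Br al be e1 e2 := by
  have k : ∀ p e : ℝ, 0 < e * (v - p) → (p < lo ∨ hi < p) → 0 < e * (x - p) := by
    intro p e h hp
    rcases hp with hp | hp
    · have : 0 < e := (mul_pos_iff_of_pos_right (by linarith : 0 < v - p)).mp h
      exact mul_pos this (by linarith)
    · have : e < 0 := by
        by_contra hc
        have := mul_nonneg (not_lt.mp hc) (by linarith : 0 ≤ p - v)
        nlinarith
      exact mul_pos_of_neg_of_neg this (by linarith)
  exact ⟨k al e1 hv.1 ha, k be e2 hv.2 hb⟩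

/-- Porosity: outside a fixed set `Z` of windows of height `h`, at most 4 windows of height `H`
and at most `2 * 16 ^ (J - H)` blocks of height `h + k`, the window is short in its block. -/
theorem por_cover (Th : ℕ → ℝ) (J h k H : ℕ) (hTh : ∀ i j, i ≤ j → j ≤ 16 ^ J → Th i ≤ Th j)
    (hk : h + k ≤ H) (hH : H ≤ J) (m : ℝ) (hm : 0 < m) :
    ∃ Z : Finset ℕ, (Z.card : ℝ) ≤ 36 * m * 16 ^ (J - (h + k)) ∧ (∀ u ∈ Z, u < 16 ^ (J - h)) ∧
      ∀ al be : ℝ, ∃ V1 V2 : Finset ℕ, V1.card ≤ 4 ∧ V2.card ≤ 2 * 16 ^ (J - H) ∧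
        ∀ (e1 e2 sg : ℝ) (E : ℕ → ℝ), (sg = 1 ∨ sg = -1) → Monotone E →
          (∀ t ≤ 16 ^ J, Th t ∈ Br al be e1 e2 → E t = sg * phi al be (Th t)) →
          ∀ B < 16 ^ J, ∀ v ∈ Br al be e1 e2, Th B < v → v < Th (B + 1) →
            B / 16 ^ H ∉ V1 → B / 16 ^ (h + k) ∉ V2 → B / 16 ^ h ∉ Z →
            m * (E ((B / 16 ^ h + 1) * 16 ^ h) - E (B / 16 ^ h * 16 ^ h)) ≤
              E ((B / 16 ^ (h + k) + 1) * 16 ^ (h + k)) - E (B / 16 ^ (h + k) * 16 ^ (h + k)) := by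
  classical
  set lo : ℕ → ℝ := fun W => Th (W / 16 ^ (H - (h + k)) * 16 ^ H) with hlo
  set hi : ℕ → ℝ := fun W => Th ((W / 16 ^ (H - (h + k)) + 1) * 16 ^ H) with hhi
  set c : ℕ → ℕ → ℝ := fun W j => Th ((W * 16 ^ k + j) * 16 ^ h) with hc
  set bad : ℕ → Finset ℕ := fun W => (Finset.range (16 ^ k)).filter (fun j => ∃ al be : ℝ,
    Adm (lo W) (hi W) (c W 0) (c W (16 ^ k)) al ∧ Adm (lo W) (hi W) (c W 0) (c W (16 ^ k)) be ∧
      |phi al be (c W (16 ^ k)) - phi al be (c W 0)| <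
        m * |phi al be (c W (j + 1)) - phi al be (c W j)|) with hbad
  have c0 : ∀ W, c W 0 = Th (W * 16 ^ (h + k)) := by
    intro W; simp only [hc]; congr 1; ring
  have c1 : ∀ W, c W (16 ^ k) = Th ((W + 1) * 16 ^ (h + k)) := by
    intro W; simp only [hc]; congr 1; ring
  have hJ : h + k ≤ J := le_trans hk hH
  have hv : ∀ W, W < 16 ^ (J - (h + k)) → W / 16 ^ (H - (h + k)) < 16 ^ (J - H) := by
    intro W hW
    have := div_lt_pow W (J - (h + k)) (H - (h + k)) hW (by omega)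
    rwa [show J - (h + k) - (H - (h + k)) = J - H by omega] at this
  have hin : ∀ W, W / 16 ^ (H - (h + k)) * 16 ^ H ≤ W * 16 ^ (h + k) ∧
      (W + 1) * 16 ^ (h + k) ≤ (W / 16 ^ (H - (h + k)) + 1) * 16 ^ H := by
    intro W
    have := win_le W 0 (H - (h + k)) (Nat.zero_le _)
    simp only [pow_zero, Nat.div_one, mul_one] at this
    have e : 16 ^ H = 16 ^ (H - (h + k)) * 16 ^ (h + k) := by
      rw [← pow_add, Nat.sub_add_cancel hk]
    rw [e, ← mul_assoc, ← mul_assoc]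
    exact ⟨Nat.mul_le_mul_right _ this.1, Nat.mul_le_mul_right _ this.2⟩
  have bc : ∀ W, W < 16 ^ (J - (h + k)) → ((bad W).card : ℝ) ≤ 36 * m := by
    intro W hW
    have e2 := end_le W J (h + k) hW hJ
    have e3 := end_le _ J H (hv W hW) hH
    have m3 : W * 16 ^ (h + k) ≤ (W + 1) * 16 ^ (h + k) := Nat.mul_le_mul_right _ (by omega)
    refine porcard (c W) (16 ^ k) ?_ (lo W) (hi W) m hm ?_ ?_
    · intro i j hij hj
      refine hTh _ _ (Nat.mul_le_mul_right _ (by omega)) (le_trans ?_ e2)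
      calc (W * 16 ^ k + j) * 16 ^ h ≤ (W * 16 ^ k + 16 ^ k) * 16 ^ h :=
            Nat.mul_le_mul_right _ (by omega)
        _ = (W + 1) * 16 ^ (h + k) := by ring
    · rw [c0]; exact hTh _ _ (hin W).1 (le_trans m3 e2)
    · rw [c1]; exact hTh _ _ (hin W).2 e3
  refine ⟨(Finset.range (16 ^ (J - (h + k)))).biUnion
    (fun W => (bad W).image (fun j => W * 16 ^ k + j)), ?_, ?_, ?_⟩
  · have h2 : ((Finset.range (16 ^ (J - (h + k)))).biUnion
        (fun W => (bad W).image (fun j => W * 16 ^ k + j))).card ≤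
        ∑ W ∈ Finset.range (16 ^ (J - (h + k))), (bad W).card :=
      le_trans Finset.card_biUnion_le (Finset.sum_le_sum (fun W _ => Finset.card_image_le))
    have h3 : ((∑ W ∈ Finset.range (16 ^ (J - (h + k))), (bad W).card : ℕ) : ℝ) ≤
        36 * m * 16 ^ (J - (h + k)) := by
      push_cast
      calc _ ≤ ∑ _W ∈ Finset.range (16 ^ (J - (h + k))), 36 * m :=
            Finset.sum_le_sum (fun W hW => bc W (Finset.mem_range.mp hW))
        _ = _ := by simp; ring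
    exact le_trans (by exact_mod_cast h2) h3
  · intro u hu
    obtain ⟨W, hW, hu⟩ := Finset.mem_biUnion.mp hu
    obtain ⟨j, hj, rfl⟩ := Finset.mem_image.mp hu
    have hj := Finset.mem_range.mp (Finset.mem_filter.mp hj).1
    have hW := Finset.mem_range.mp hW
    calc W * 16 ^ k + j < (W + 1) * 16 ^ k := by rw [add_mul, one_mul]; omega
      _ ≤ 16 ^ (J - (h + k)) * 16 ^ k := Nat.mul_le_mul_right _ hW
      _ = 16 ^ (J - h) := by rw [← pow_add]; congr 1; omega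
  intro al be
  set b1 : ℝ → Finset ℕ := fun p => (Finset.range (16 ^ (J - H))).filter (fun V =>
    Th (V * 16 ^ H) < Th ((V + 1) * 16 ^ H) ∧ Th (V * 16 ^ H) ≤ p ∧ p ≤ Th ((V + 1) * 16 ^ H))
    with hb1
  set b2 : ℝ → Finset ℕ := fun p => (Finset.range (16 ^ (J - (h + k)))).filter (fun W =>
    (p < lo W ∨ hi W < p) ∧
      ¬ Adm (lo W) (hi W) (Th (W * 16 ^ (h + k))) (Th ((W + 1) * 16 ^ (h + k))) p) with hb2
  have k1 : ∀ p, (b1 p).card ≤ 2 := fun p =>
    two_windows (fun V => Th (V * 16 ^ H)) (16 ^ (J - H)) (fun i j hij hj =>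
      hTh _ _ (Nat.mul_le_mul_right _ hij) (by
        calc j * 16 ^ H ≤ 16 ^ (J - H) * 16 ^ H := Nat.mul_le_mul_right _ hj
          _ = 16 ^ J := by rw [← pow_add, Nat.sub_add_cancel hH])) p
  have k2 : ∀ p, (b2 p).card ≤ 16 ^ (J - H) := fun p => inter_card Th J (h + k) H hTh hk hH p
  refine ⟨b1 al ∪ b1 be, b2 al ∪ b2 be, ?_, ?_, ?_⟩
  · have := Finset.card_union_le (b1 al) (b1 be)
    have := k1 al
    have := k1 be
    omega
  · have := Finset.card_union_le (b2 al) (b2 be)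
    have := k2 al
    have := k2 be
    omega
  intro e1 e2 sg E hsg hE hEq B hB v hvb v1 v2 n1 n2 n3
  set W := B / 16 ^ (h + k) with hW
  have hWlt : W < 16 ^ (J - (h + k)) := div_lt_pow B J _ hB hJ
  have eV : W / 16 ^ (H - (h + k)) = B / 16 ^ H := by
    rw [hW, Nat.div_div_eq_div_mul, ← pow_add, Nat.add_sub_cancel' hk]
  have hVlt : B / 16 ^ H < 16 ^ (J - H) := div_lt_pow B J _ hB hH
  have eH := end_le _ J H hVlt hH
  have w0 := win_le B 0 H (Nat.zero_le _)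
  simp only [pow_zero, Nat.div_one, mul_one] at w0
  have lo_v : lo W < v := by
    simp only [hlo]; rw [eV]
    exact lt_of_le_of_lt (hTh _ _ w0.1 (le_of_lt hB)) v1
  have v_hi : v < hi W := by
    simp only [hhi]; rw [eV]
    exact lt_of_lt_of_le v2 (hTh _ _ w0.2 eH)
  have out : ∀ p, B / 16 ^ H ∉ b1 p → (p < lo W ∨ hi W < p) := by
    intro p hp
    by_contra hc'
    push Not at hc'
    refine hp (Finset.mem_filter.mpr ⟨Finset.mem_range.mpr hVlt, ?_⟩)
    have q := lt_trans lo_v v_hi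
    simp only [hlo, hhi] at q hc'
    rw [eV] at q hc'
    exact ⟨q, hc'.1, hc'.2⟩
  have oa := out al (fun hx => n1 (Finset.mem_union_left _ hx))
  have ob := out be (fun hx => n1 (Finset.mem_union_right _ hx))
  have adm : ∀ p, (p < lo W ∨ hi W < p) → W ∉ b2 p →
      Adm (lo W) (hi W) (c W 0) (c W (16 ^ k)) p := by
    intro p hp hn
    rw [c0, c1]
    by_contra hc'
    exact hn (Finset.mem_filter.mpr ⟨Finset.mem_range.mpr hWlt, hp, hc'⟩)
  have aa := adm al oa (fun hx => n2 (Finset.mem_union_left _ hx))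
  have ab := adm be ob (fun hx => n2 (Finset.mem_union_right _ hx))
  set u := B / 16 ^ h with hu
  have eW : W = u / 16 ^ k := by rw [hW, hu, Nat.div_div_eq_div_mul, ← pow_add]
  have eu : W * 16 ^ k + u % 16 ^ k = u := by rw [eW]; exact Nat.div_add_mod' _ _
  have hj : u % 16 ^ k < 16 ^ k := Nat.mod_lt _ (by positivity)
  have nb : u % 16 ^ k ∉ bad W := fun hx => n3 (Finset.mem_biUnion.mpr
    ⟨W, Finset.mem_range.mpr hWlt, Finset.mem_image.mpr ⟨_, hx, eu⟩⟩)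
  have ineq : m * |phi al be (c W (u % 16 ^ k + 1)) - phi al be (c W (u % 16 ^ k))| ≤
      |phi al be (c W (16 ^ k)) - phi al be (c W 0)| := by
    by_contra hc'
    exact nb (Finset.mem_filter.mpr ⟨Finset.mem_range.mpr hj, al, be, aa, ab, not_le.mp hc'⟩)
  have d0 : c W (u % 16 ^ k) = Th (u * 16 ^ h) := by simp only [hc]; rw [eu]
  have d1 : c W (u % 16 ^ k + 1) = Th ((u + 1) * 16 ^ h) := by
    simp only [hc]; rw [← add_assoc, eu]
  rw [c0, c1, d0, d1] at ineq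
  have val : ∀ t, B / 16 ^ H * 16 ^ H ≤ t → t ≤ (B / 16 ^ H + 1) * 16 ^ H →
      E t = sg * phi al be (Th t) := by
    intro t t1 t2
    refine hEq t (le_trans t2 eH) (br_of_out al be e1 e2 (lo W) (hi W) v _ hvb
      (le_of_lt lo_v) (le_of_lt v_hi) ?_ ?_ oa ob)
    · simp only [hlo]; rw [eV]; exact hTh _ _ t1 (le_trans t2 eH)
    · simp only [hhi]; rw [eV]; exact hTh _ _ t2 eH
  have wa := win_le B h H (by omega)
  have wb := win_le B (h + k) H hk
  have s1 : u * 16 ^ h ≤ (u + 1) * 16 ^ h := Nat.mul_le_mul_right _ (by omega)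
  have s2 : W * 16 ^ (h + k) ≤ (W + 1) * 16 ^ (h + k) := Nat.mul_le_mul_right _ (by omega)
  have r1 := val (u * 16 ^ h) wa.1 (le_trans s1 wa.2)
  have r2 := val ((u + 1) * 16 ^ h) (le_trans wa.1 s1) wa.2
  have r3 := val (W * 16 ^ (h + k)) wb.1 (le_trans s2 wb.2)
  have r4 := val ((W + 1) * 16 ^ (h + k)) (le_trans wb.1 s2) wb.2
  have ab1 : ∀ x z : ℝ, |sg * x - sg * z| = |x - z| := by
    intro x z
    rw [← mul_sub, abs_mul]
    rcases hsg with q | q <;> rw [q] <;> simp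
  have f1 : E ((u + 1) * 16 ^ h) - E (u * 16 ^ h) =
      |phi al be (Th ((u + 1) * 16 ^ h)) - phi al be (Th (u * 16 ^ h))| := by
    rw [← ab1, ← r1, ← r2, abs_of_nonneg (sub_nonneg.mpr (hE s1))]
  have f2 : E ((W + 1) * 16 ^ (h + k)) - E (W * 16 ^ (h + k)) =
      |phi al be (Th ((W + 1) * 16 ^ (h + k))) - phi al be (Th (W * 16 ^ (h + k)))| := by
    rw [← ab1, ← r3, ← r4, abs_of_nonneg (sub_nonneg.mpr (hE s2))]
  rw [f1, f2]
  exact ineq

end Pool.Agent.P.MP_77a832_co.KP
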